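import Pool.Agent.WAQ.StmtsM
import Pool.Agent.WAQ.Alg

set_option autoImplicit false

namespace Pool.Agent.WAQ.H28

open Classical WeierstrassCurve.Affine
open Pool.Agent.WAQ

variable [Par] {F : Type} [NormedField F] {ϖ : ℤ}

theorem rpb_um (h : IsLoc F ϖ) {x y : F} {M : ℝ} (hx : ‖x‖ < M) (hy : ‖y‖ < M) : ‖x + y‖ < M :=
  (h.ultra x y).trans_lt (max_lt hx hy)

theorem rpb_um_eq (h : IsLoc F ϖ) {x y : F} (hx : ‖x - y‖ < ‖y‖) : ‖x‖ = ‖y‖ := by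
  apply le_antisymm
  · have h1 := h.ultra (x - y) y
    rw [sub_add_cancel] at h1
    exact h1.trans (max_le hx.le le_rfl)
  · by_contra hc
    have h1 : ‖x + -(x - y)‖ < ‖y‖ := rpb_um h (not_le.1 hc) (by rwa [norm_neg])
    have e : x + -(x - y) = y := by ring
    rw [e] at h1
    exact lt_irrefl _ h1

theorem rpb (fra : FraStmt) (nrm : NrmStmt) (mzz : MzzStmt) (lin : LinStmt) (zlv : ZlvStmt) :
    RpbRow := by
  intro F _ ϖ h u b hu hb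
  obtain ⟨hU, h1, h2, h3⟩ := hu
  obtain ⟨d, P, Q, hdn, rfl⟩ := nrm F ϖ h u hU
  have hd : d ≠ 0 := by
    rw [← norm_pos_iff]
    rcases hdn with h1 | h1
    · rw [h1]; exact one_pos
    · rw [h1]; exact h.uni
  haveI := h.gd
  have two := h.two_ne
  obtain ⟨m1, m2, m3, m4⟩ := mzz F ϖ h d hd P Q
  obtain ⟨hP0, hQ0⟩ := m1 hU
  have hP : Big 1 P := Or.inr h1
  have hQ : Big 1 Q := Or.inr h2
  obtain ⟨hzP, hzQ, -, k1, -⟩ := m2 hP0 hP hQ0 hQ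
  have hzp : 0 < ‖zs P‖ := norm_pos_iff.2 hzP
  have hQP : ‖zs Q‖ ≤ ‖zs P‖ := by
    rw [k1, norm_div, div_le_one hzp] at h3
    exact h3
  obtain ⟨bP, nP⟩ := lin F ϖ h d hd 1 (-b) P Q hP hQ hQP
  obtain ⟨z1, z2, z3, z4, z5, z6, z7, z8⟩ := zlv F ϖ h d hd
  have hq := z8 P hP0 hP
  have hq1 : qn F ϖ < 1 := (h.lt_one ϖ).2 dvd_rfl
  have hbn : ‖am F b‖ < 1 := (h.lt_one b).2 hb
  set P' : Pt d := sm 1 P + sm (-b) Q with hP'
  have hzP' : ‖zs P'‖ = ‖zs P‖ := by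
    apply rpb_um_eq h
    have e1 : zs P' - zs P = (zs P' - (am F 1 * zs P + am F (-b) * zs Q)) + -(am F b * zs Q) := by
      rw [map_one, map_neg]
      ring
    rw [e1]
    refine rpb_um h (nP.trans_lt ?_) ?_
    · have e2 : ‖d‖ ^ 2 * ‖zs P‖ ^ 5 = (‖d‖ * ‖zs P‖ ^ 2) * (‖d‖ * ‖zs P‖ ^ 2) * ‖zs P‖ := by ring
      rw [e2]
      have t0 : 0 ≤ ‖d‖ * ‖zs P‖ ^ 2 := by positivity
      have t1 : ‖d‖ * ‖zs P‖ ^ 2 < 1 := hq.trans_lt hq1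
      have t2 : (‖d‖ * ‖zs P‖ ^ 2) * (‖d‖ * ‖zs P‖ ^ 2) < 1 := by nlinarith
      exact (mul_lt_mul_of_pos_right t2 hzp).trans_eq (one_mul _)
    · rw [norm_neg, norm_mul]
      calc ‖am F b‖ * ‖zs Q‖ ≤ ‖am F b‖ * ‖zs P‖ :=
            mul_le_mul_of_nonneg_left hQP (norm_nonneg _)
        _ < 1 * ‖zs P‖ := mul_lt_mul_of_pos_right hbn hzp
        _ = ‖zs P‖ := one_mul _
  have hP'0 : P' ≠ 0 := by
    intro h0
    rw [h0, zs_zero, norm_zero] at hzP'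
    exact hzp.ne hzP'
  obtain ⟨n1, n2, n3, n4⟩ := mzz F ϖ h d hd P' Q
  obtain ⟨-, -, hU', k2, -⟩ := n2 hP'0 bP hQ0 hQ
  refine ⟨kum d P' Q, ⟨hU', ?_, h2, ?_⟩, hU', hU, by ring, ?_⟩
  · exact bP.resolve_left hP'0
  · rw [k2, norm_div, hzP', div_le_one hzp]
    exact hQP
  · rw [fra F two d P' Q 1 b 0 1 hd hU']
    have e3 : sm 1 P' + sm b Q = P := by
      rw [hP', sm_def, sm_def, sm_def, sm_def]
      simp
    have e4 : sm 0 P' + sm 1 Q = Q := by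
      rw [sm_def, sm_def]
      simp
    rw [e3, e4]

end Pool.Agent.WAQ.H28
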